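import Mathlib

set_option autoImplicit false

namespace Pool.Agent.Lib.MP_aaa69e_ag

open MvPolynomial Topology Filter Metric

/-- The discriminant of `t^3 + a t^2 + b t + 1`, as a polynomial in `a = X 0` and `b = X 1`. -/
noncomputable def F : MvPolynomial (Fin 2) ℂ :=
  X 0 ^ 2 * X 1 ^ 2 - 4 * X 0 ^ 3 - 4 * X 1 ^ 3 + 18 * X 0 * X 1 - 27

theorem eval_F (z : Fin 2 → ℂ) :
    eval z F = z 0 ^ 2 * z 1 ^ 2 - 4 * z 0 ^ 3 - 4 * z 1 ^ 3 + 18 * z 0 * z 1 - 27 := by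
  simp [F]

theorem pderiv_num (i : Fin 2) (n : ℕ) : pderiv (R := ℂ) i (n : MvPolynomial (Fin 2) ℂ) = 0 :=
  (pderiv i).map_natCast n

theorem eval_pderiv_zero (z : Fin 2 → ℂ) :
    eval z (pderiv 0 F) = 2 * z 0 * z 1 ^ 2 - 12 * z 0 ^ 2 + 18 * z 1 := by
  have h1 : (1 : Fin 2) ≠ 0 := by decide
  have h4 := pderiv_num 0 4
  have h18 := pderiv_num 0 18
  have h27 := pderiv_num 0 27
  push_cast at h4 h18 h27
  simp only [F, map_sub, map_add, Derivation.leibniz, Derivation.leibniz_pow, h4, h18, h27,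
    pderiv_X_self, pderiv_X_of_ne h1]
  simp
  ring

theorem eval_pderiv_one (z : Fin 2 → ℂ) :
    eval z (pderiv 1 F) = 2 * z 1 * z 0 ^ 2 - 12 * z 1 ^ 2 + 18 * z 0 := by
  have h1 : (0 : Fin 2) ≠ 1 := by decide
  have h4 := pderiv_num 1 4
  have h18 := pderiv_num 1 18
  have h27 := pderiv_num 1 27
  push_cast at h4 h18 h27
  simp only [F, map_sub, map_add, Derivation.leibniz, Derivation.leibniz_pow, h4, h18, h27,
    pderiv_X_self, pderiv_X_of_ne h1]
  simp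
  ring

/-- No polynomial curve `a = G(b)` lies in the deltoid. -/
theorem no_root (G : Polynomial ℂ)
    (h : G ^ 2 * Polynomial.X ^ 2 - 4 * G ^ 3 - 4 * Polynomial.X ^ 3 + 18 * G * Polynomial.X - 27
      = 0) : False := by
  -- `G^2 * (X^2 - 4 G) = 4 X^3 - 18 X G + 27`
  have h' : G ^ 2 * (Polynomial.X ^ 2 - 4 * G) = 4 * Polynomial.X ^ 3 - 18 * Polynomial.X * G + 27 := by
    linear_combination h
  have hG0 : G ≠ 0 := by
    rintro rfl
    have := congrArg (Polynomial.eval 0) h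
    simp at this
  set H := Polynomial.X ^ 2 - 4 * G with hH
  have hH0 : H ≠ 0 := by
    intro hz
    rw [hz] at h'
    have h1 := congrArg (Polynomial.eval 0) hz
    have h2 := congrArg (Polynomial.eval 0) h'
    simp at h2
  have hC4 : (4 : Polynomial ℂ) = Polynomial.C 4 := (map_ofNat Polynomial.C 4).symm
  have hC18 : (18 : Polynomial ℂ) = Polynomial.C 18 := (map_ofNat Polynomial.C 18).symm
  have hC27 : (27 : Polynomial ℂ) = Polynomial.C 27 := (map_ofNat Polynomial.C 27).symm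
  have hdeg : 2 * G.natDegree + H.natDegree = (4 * Polynomial.X ^ 3 - 18 * Polynomial.X * G + 27 : Polynomial ℂ).natDegree := by
    rw [← h', Polynomial.natDegree_mul (pow_ne_zero 2 hG0) hH0, Polynomial.natDegree_pow]
  rcases lt_trichotomy G.natDegree 2 with hlt | heq | hgt
  · -- natDegree H = 2
    have hH2 : H.natDegree = 2 := by
      rw [hH, hC4]
      have : (Polynomial.C (4:ℂ) * G).natDegree < 2 := lt_of_le_of_lt (Polynomial.natDegree_C_mul_le _ _) hlt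
      rw [Polynomial.natDegree_sub_eq_left_of_natDegree_lt] <;> simpa using this
    have hR : (4 * Polynomial.X ^ 3 - 18 * Polynomial.X * G + 27 : Polynomial ℂ).natDegree = 3 := by
      rw [hC4, hC18, hC27]
      have h1 : (Polynomial.C (18:ℂ) * Polynomial.X * G).natDegree < 3 := by
        refine lt_of_le_of_lt Polynomial.natDegree_mul_le ?_
        have : (Polynomial.C (18:ℂ) * Polynomial.X).natDegree ≤ 1 := by
          simp
        omega
      have h3 : (Polynomial.C (4:ℂ) * Polynomial.X ^ 3).natDegree = 3 := by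
        rw [Polynomial.natDegree_C_mul_X_pow _ _ (by norm_num)]
      have h2 : (Polynomial.C (4:ℂ) * Polynomial.X ^ 3 - Polynomial.C (18:ℂ) * Polynomial.X * G).natDegree = 3 := by
        rw [Polynomial.natDegree_sub_eq_left_of_natDegree_lt (by rw [h3]; exact h1), h3]
      rw [Polynomial.natDegree_add_C, h2]
    omega
  · have hR : (4 * Polynomial.X ^ 3 - 18 * Polynomial.X * G + 27 : Polynomial ℂ).natDegree ≤ 3 := by
      rw [hC4, hC18, hC27]
      have h1 : (Polynomial.C (18:ℂ) * Polynomial.X * G).natDegree ≤ 3 := by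
        refine Polynomial.natDegree_mul_le.trans ?_
        have : (Polynomial.C (18:ℂ) * Polynomial.X).natDegree ≤ 1 := by
          simp
        omega
      have h3 : (Polynomial.C (4:ℂ) * Polynomial.X ^ 3).natDegree ≤ 3 :=
        Polynomial.natDegree_C_mul_X_pow_le _ _
      rw [Polynomial.natDegree_add_C]
      exact (Polynomial.natDegree_sub_le _ _).trans (max_le h3 h1)
    omega
  · have hR : (4 * Polynomial.X ^ 3 - 18 * Polynomial.X * G + 27 : Polynomial ℂ).natDegree ≤ max 3 (1 + G.natDegree) := by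
      rw [hC4, hC18, hC27]
      have h1 : (Polynomial.C (18:ℂ) * Polynomial.X * G).natDegree ≤ 1 + G.natDegree := by
        refine Polynomial.natDegree_mul_le.trans ?_
        have : (Polynomial.C (18:ℂ) * Polynomial.X).natDegree ≤ 1 := by
          simp
        omega
      have h3 : (Polynomial.C (4:ℂ) * Polynomial.X ^ 3).natDegree ≤ 3 :=
        Polynomial.natDegree_C_mul_X_pow_le _ _
      rw [Polynomial.natDegree_add_C]
      exact (Polynomial.natDegree_sub_le _ _).trans (max_le_max h3 h1)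
    have : max 3 (1 + G.natDegree) = 1 + G.natDegree := by omega
    omega

theorem irreducible_F : Irreducible F := by
  rw [← MulEquiv.irreducible_iff (finSuccEquiv ℂ 1)]
  set b : MvPolynomial (Fin 1) ℂ := X 0 with hb
  have hF : finSuccEquiv ℂ 1 F = Polynomial.X ^ 2 * (Polynomial.C b) ^ 2 - 4 * Polynomial.X ^ 3
      - 4 * (Polynomial.C b) ^ 3 + 18 * Polynomial.X * Polynomial.C b - 27 := by
    have h1 : (1 : Fin 2) = Fin.succ 0 := rfl
    simp only [F, map_sub, map_add, map_mul, map_pow, finSuccEquiv_X_zero, h1, finSuccEquiv_X_succ,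
      map_ofNat, hb]
  set Q : Polynomial (MvPolynomial (Fin 1) ℂ) :=
    Polynomial.X ^ 3 + Polynomial.C (- C (1/4) * b ^ 2) * Polynomial.X ^ 2
      + Polynomial.C (- C (9/2) * b) * Polynomial.X + Polynomial.C (b ^ 3 + C (27/4)) with hQ
  have e1 : Polynomial.C (C 4) = (4 : Polynomial (MvPolynomial (Fin 1) ℂ)) := by
    rw [map_ofNat, map_ofNat]
  have e2 : Polynomial.C (C 18) = (18 : Polynomial (MvPolynomial (Fin 1) ℂ)) := by
    rw [map_ofNat, map_ofNat]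
  have e3 : Polynomial.C (C 27) = (27 : Polynomial (MvPolynomial (Fin 1) ℂ)) := by
    rw [map_ofNat, map_ofNat]
  have hPQ : finSuccEquiv ℂ 1 F = Polynomial.C (C (-4)) * Q := by
    rw [hF, hQ]
    have k1 : 4 * Polynomial.C (C (1/4)) = (1 : Polynomial (MvPolynomial (Fin 1) ℂ)) := by
      rw [← e1, ← Polynomial.C_mul, ← C_mul]; norm_num
    have k2 : 4 * Polynomial.C (C (9/2)) = (18 : Polynomial (MvPolynomial (Fin 1) ℂ)) := by
      rw [← e1, ← e2, ← Polynomial.C_mul, ← C_mul, show (4 : ℂ) * (9/2) = 18 by norm_num]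
    have k3 : 4 * Polynomial.C (C (27/4)) = (27 : Polynomial (MvPolynomial (Fin 1) ℂ)) := by
      rw [← e1, ← e3, ← Polynomial.C_mul, ← C_mul, show (4 : ℂ) * (27/4) = 27 by norm_num]
    have k4 : Polynomial.C (C (-4)) = (-4 : Polynomial (MvPolynomial (Fin 1) ℂ)) := by
      rw [← e1]; simp
    rw [k4]
    simp only [map_neg, Polynomial.C_mul, Polynomial.C_add, Polynomial.C_pow, neg_mul]
    linear_combination (-(Polynomial.C b)^2 * Polynomial.X ^ 2) * k1 - Polynomial.C b * Polynomial.X * k2 + k3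
  have hu : IsUnit (Polynomial.C (C (-4)) : Polynomial (MvPolynomial (Fin 1) ℂ)) := by
    apply Polynomial.isUnit_C.mpr
    exact (IsUnit.mk0 (-4 : ℂ) (by norm_num)).map C
  rw [hPQ]
  obtain ⟨u, hu⟩ := hu
  rw [← hu, irreducible_units_mul]
  have hmonic : Q.Monic := by
    rw [hQ]; monicity!
  have hdeg : Q.natDegree = 3 := by
    rw [hQ]; compute_degree!
  rw [hmonic.irreducible_iff_roots_eq_zero_of_degree_le_three (by omega) (by omega)]
  rw [Multiset.eq_zero_iff_forall_notMem]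
  intro g hg
  rw [Polynomial.mem_roots hmonic.ne_zero, Polynomial.IsRoot.def] at hg
  have h2 : Polynomial.eval g (Polynomial.C (C (-4)) * Q) = 0 := by
    rw [Polynomial.eval_mul, hg, mul_zero]
  rw [← hPQ, hF] at h2
  simp only [Polynomial.eval_sub, Polynomial.eval_add, Polynomial.eval_mul, Polynomial.eval_pow, Polynomial.eval_X, Polynomial.eval_C, Polynomial.eval_ofNat] at h2
  have h3 := congrArg (aeval (fun _ : Fin 1 => (Polynomial.X : Polynomial ℂ))) h2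
  simp only [map_sub, map_add, map_mul, map_pow, map_ofNat, hb, aeval_X, map_zero] at h3
  exact no_root _ h3

/-- punctured plane -/
abbrev Cx := {z : ℂ // z ≠ 0}

noncomputable def par (r : ℂ) : Fin 2 → ℂ := ![1 / r ^ 2 - 2 * r, r ^ 2 - 2 / r]

theorem par_mem (r : ℂ) (hr : r ≠ 0) :
    par r 0 ^ 2 * par r 1 ^ 2 - 4 * par r 0 ^ 3 - 4 * par r 1 ^ 3 + 18 * par r 0 * par r 1 - 27 = 0 := by
  simp only [par, Matrix.cons_val_zero, Matrix.cons_val_one]
  field_simp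
  ring

theorem par_inj {r r' : ℂ} (hr : r ≠ 0) (hr' : r' ≠ 0) (h : par r = par r') : r = r' := by
  have h0 := congrFun h 0
  have h1 := congrFun h 1
  simp only [par, Matrix.cons_val_zero, Matrix.cons_val_one] at h0 h1
  field_simp at h0 h1
  by_contra hne
  have hd : r - r' ≠ 0 := sub_ne_zero.mpr hne
  -- from `b`: `(r - r') ((r + r') r r' + 2) = 0`
  have e1 : (r + r') * (r * r') + 2 = 0 := by
    apply mul_left_cancel₀ hd
    linear_combination h1
  have e2 : (r + r') + 2 * (r * r') ^ 2 = 0 := by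
    apply mul_left_cancel₀ hd
    linear_combination -h0
  have e3 : (r * r') ^ 3 = 1 := by
    linear_combination -(1/2) * e1 + (1/2) * (r * r') * e2
  have e4 : (r - r') ^ 2 = 0 := by
    linear_combination (r + r' - 2 * (r * r')^2) * e2 + 4 * (r * r') * e3
  exact hd (pow_eq_zero_iff (two_ne_zero)|>.mp e4)

theorem par_of_double {a b r s : ℂ} (ha : a = -(2 * r + s)) (hb : b = r ^ 2 + 2 * r * s)
    (hc : r ^ 2 * s = -1) : r ≠ 0 ∧ par r = ![a, b] := by
  have hr : r ≠ 0 := by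
    rintro rfl
    simp at hc
  refine ⟨hr, ?_⟩
  have hs : s = -1 / r ^ 2 := by
    field_simp
    linear_combination hc
  ext i
  fin_cases i
  · simp only [par, Matrix.cons_val_zero, ha, hs, Fin.zero_eta, Fin.isValue]
    field_simp
    ring
  · simp only [par, Matrix.cons_val_one, hb, hs, Fin.mk_one, Fin.isValue, Matrix.cons_val_fin_one]
    field_simp
    ring

theorem exists_root_cubic (a b : ℂ) : ∃ r : ℂ, r ^ 3 + a * r ^ 2 + b * r + 1 = 0 := by
  have h := IsAlgClosed.exists_root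
    (Polynomial.X ^ 3 + Polynomial.C a * Polynomial.X ^ 2 + Polynomial.C b * Polynomial.X + Polynomial.C 1) (by
      have : (Polynomial.X ^ 3 + Polynomial.C a * Polynomial.X ^ 2 + Polynomial.C b * Polynomial.X + Polynomial.C 1 : Polynomial ℂ).degree = 3 := by
        compute_degree!
      rw [this]; norm_num)
  obtain ⟨r, hr⟩ := h
  refine ⟨r, ?_⟩
  simpa [Polynomial.IsRoot.def] using hr

theorem par_surj (z : Fin 2 → ℂ)
    (h : z 0 ^ 2 * z 1 ^ 2 - 4 * z 0 ^ 3 - 4 * z 1 ^ 3 + 18 * z 0 * z 1 - 27 = 0) :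
    ∃ r : ℂ, r ≠ 0 ∧ par r = z := by
  obtain ⟨r1, h1⟩ := exists_root_cubic (z 0) (z 1)
  obtain ⟨d, hd⟩ := IsAlgClosed.exists_pow_nat_eq ((z 0 + r1) ^ 2 - 4 * (z 1 + (z 0 + r1) * r1)) (n := 2) (by norm_num)
  have hz : z = ![z 0, z 1] := by
    ext i; fin_cases i <;> rfl
  obtain ⟨r2, hr2⟩ : ∃ r2, r2 = (-(z 0 + r1) + d) / 2 := ⟨_, rfl⟩
  obtain ⟨r3, hr3⟩ : ∃ r3, r3 = (-(z 0 + r1) - d) / 2 := ⟨_, rfl⟩
  have s1 : z 0 = -(r1 + r2 + r3) := by
    rw [hr2, hr3]; ring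
  have s2 : z 1 = r1 * r2 + r1 * r3 + r2 * r3 := by
    have : r2 * r3 = z 1 + (z 0 + r1) * r1 := by
      rw [hr2, hr3]; linear_combination (-1/4) * hd
    rw [show r1 * r2 + r1 * r3 + r2 * r3 = r1 * (r2 + r3) + r2 * r3 by ring, this]
    have : r2 + r3 = -(z 0 + r1) := by rw [hr2, hr3]; ring
    rw [this]; ring
  have s3 : r1 * r2 * r3 = -1 := by
    rw [s1, s2] at h1
    linear_combination h1
  have hdisc : ((r1 - r2) * (r1 - r3) * (r2 - r3)) ^ 2 = 0 := by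
    rw [s1, s2] at h
    have e : ((r1 - r2) * (r1 - r3) * (r2 - r3)) ^ 2 =
      (-(r1 + r2 + r3)) ^ 2 * (r1 * r2 + r1 * r3 + r2 * r3) ^ 2 - 4 * (r1 * r2 + r1 * r3 + r2 * r3) ^ 3
      - 4 * (-(r1 + r2 + r3)) ^ 3 * (-(r1 * r2 * r3)) - 27 * (r1 * r2 * r3) ^ 2
      + 18 * (-(r1 + r2 + r3)) * (r1 * r2 + r1 * r3 + r2 * r3) * (-(r1 * r2 * r3)) := by ring
    rw [e, s3]
    linear_combination h
  have h0 := pow_eq_zero_iff (two_ne_zero) |>.mp hdisc
  rw [hz]
  rcases mul_eq_zero.mp h0 with h0 | h0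
  · rcases mul_eq_zero.mp h0 with h0 | h0
    · have e : r2 = r1 := (sub_eq_zero.mp h0).symm
      subst e
      exact ⟨r2, par_of_double (s := r3) (by rw [s1]; ring) (by rw [s2]; ring) (by rw [← s3]; ring)⟩
    · have e : r3 = r1 := (sub_eq_zero.mp h0).symm
      subst e
      exact ⟨r3, par_of_double (s := r2) (by rw [s1]; ring) (by rw [s2]; ring) (by rw [← s3]; ring)⟩
  · have e : r3 = r2 := (sub_eq_zero.mp h0).symm
    subst e
    exact ⟨r3, par_of_double (s := r1) (by rw [s1]; ring) (by rw [s2]; ring) (by rw [← s3]; ring)⟩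

theorem continuousOn_par : ContinuousOn par {0}ᶜ := by
  rw [continuousOn_pi]
  intro i
  fin_cases i
  · simp only [par]
    show ContinuousOn (fun r : ℂ => 1 / r ^ 2 - 2 * r) {0}ᶜ
    refine ContinuousOn.sub (ContinuousOn.div continuousOn_const (by fun_prop) ?_) (by fun_prop)
    intro x hx
    exact pow_ne_zero 2 hx
  · simp only [par]
    show ContinuousOn (fun r : ℂ => r ^ 2 - 2 / r) {0}ᶜ
    refine ContinuousOn.sub (by fun_prop) (ContinuousOn.div continuousOn_const (by fun_prop) ?_)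
    intro x hx
    exact hx

theorem continuous_par : Continuous (fun r : Cx => par r.1) :=
  continuousOn_par.comp_continuous continuous_subtype_val (fun r => r.2)

theorem norm_bounds {r : ℂ} (hr : r ≠ 0) {M : ℝ} (hM : 0 ≤ M) (h : ‖par r‖ ≤ M) :
    1 / (M + 2) ≤ ‖r‖ ∧ ‖r‖ ≤ M + 2 := by
  have h0 : ‖1 / r ^ 2 - 2 * r‖ ≤ M := (norm_le_pi_norm (par r) 0).trans h
  have h1 : ‖r ^ 2 - 2 / r‖ ≤ M := (norm_le_pi_norm (par r) 1).trans h
  have hpos : 0 < ‖r‖ := norm_pos_iff.mpr hr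
  have e0 : 1 / ‖r‖ ^ 2 ≤ M + 2 * ‖r‖ := by
    have := norm_sub_norm_le (1 / r ^ 2) (2 * r)
    simp only [norm_div, norm_one, norm_pow, norm_mul, Complex.norm_ofNat] at this
    linarith
  have e1 : ‖r‖ ^ 2 ≤ M + 2 / ‖r‖ := by
    have := norm_sub_norm_le (r ^ 2) (2 / r)
    simp only [norm_div, norm_pow, Complex.norm_ofNat] at this
    linarith
  constructor
  · by_cases hle : ‖r‖ ≤ 1
    · have e2 : 1 / ‖r‖ ≤ 1 / ‖r‖ ^ 2 := by
        apply one_div_le_one_div_of_le (by positivity)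
        nlinarith
      rw [div_le_iff₀ (by positivity)]
      rw [div_le_iff₀ hpos] at e2
      have : 1 / ‖r‖ ^ 2 * ‖r‖ ≤ (M + 2) * ‖r‖ := by
        apply mul_le_mul_of_nonneg_right _ hpos.le
        linarith
      linarith
    · push Not at hle
      have : 1 / (M + 2) ≤ 1 := by
        rw [div_le_one (by positivity)]; linarith
      linarith
  · by_cases hle : ‖r‖ ≤ 1
    · linarith
    · push Not at hle
      have : 2 / ‖r‖ ≤ 2 := by
        rw [div_le_iff₀ hpos]; linarith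
      nlinarith

theorem isProperMap_par : IsProperMap (fun r : Cx => par r.1) := by
  rw [isProperMap_iff_isCompact_preimage]
  refine ⟨continuous_par, fun K hK => ?_⟩
  obtain ⟨M, hM⟩ := hK.isBounded.exists_norm_le
  have hcomp : IsCompact {r : Cx | 1 / (max M 0 + 2) ≤ ‖r.1‖ ∧ ‖r.1‖ ≤ max M 0 + 2} := by
    rw [Subtype.isCompact_iff]
    have : ((↑) '' {r : Cx | 1 / (max M 0 + 2) ≤ ‖r.1‖ ∧ ‖r.1‖ ≤ max M 0 + 2} : Set ℂ)
        = {r : ℂ | 1 / (max M 0 + 2) ≤ ‖r‖ ∧ ‖r‖ ≤ max M 0 + 2} := by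
      ext r
      simp only [Set.mem_image, Set.mem_ofPred_eq, Subtype.exists]
      constructor
      · rintro ⟨a, ha, h, rfl⟩; exact h
      · intro h
        refine ⟨r, ?_, h, rfl⟩
        rintro rfl
        have : 0 < 1 / (max M 0 + 2) := by positivity
        simp at h
        have h1 := h.1
        have h2 : 0 ≤ max M 0 := le_max_right _ _
        linarith
    rw [this]
    apply Metric.isCompact_of_isClosed_isBounded
    · exact (isClosed_le continuous_const continuous_norm).inter (isClosed_le continuous_norm continuous_const)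
    · apply (Metric.isBounded_closedBall (x := (0:ℂ)) (r := max M 0 + 2)).subset
      intro r hr
      simpa using hr.2
  refine hcomp.of_isClosed_subset (hK.isClosed.preimage continuous_par) ?_
  intro r hr
  exact norm_bounds r.2 (le_max_right _ _) ((hM _ hr).trans (le_max_left _ _))

/-- The deltoid is homeomorphic to the punctured plane. -/
noncomputable def homeo : Cx ≃ₜ {z : Fin 2 → ℂ | eval z F = 0} :=
  (IsClosedEmbedding.of_continuous_injective_isClosedMap continuous_par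
    (fun r r' h => Subtype.ext (par_inj r.2 r'.2 h)) isProperMap_par.isClosedMap).isEmbedding.toHomeomorph.trans
  (Homeomorph.setCongr (by
    ext z
    rw [Set.mem_ofPred_eq, eval_F]
    constructor
    · rintro ⟨r, rfl⟩
      exact par_mem r.1 r.2
    · intro h
      obtain ⟨r, hr, rfl⟩ := par_surj z h
      exact ⟨⟨r, hr⟩, rfl⟩))

theorem finrank_le_one_of_generator {G : Type*} [Group G] (g : G) (hg : ∀ x : G, ∃ n : ℤ, g ^ n = x) :
    Module.finrank ℤ (Additive (Abelianization G)) ≤ 1 := by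
  refine finrank_le_one (Additive.ofMul (Abelianization.of g)) fun w => ?_
  obtain ⟨x, hx⟩ := QuotientGroup.mk_surjective (Additive.toMul w)
  obtain ⟨n, rfl⟩ := hg x
  refine ⟨n, ?_⟩
  rw [← ofMul_zpow, ← map_zpow]
  exact congrArg Additive.ofMul hx

theorem exists_generator {G : Type*} [Group G] {A : Type*} [AddGroup A] (a : A)
    (φ : G ≃* (Multiplicative (AddSubgroup.zmultiples a))ᵐᵒᵖ) :
    ∃ g : G, ∀ x : G, ∃ n : ℤ, g ^ n = x := by
  refine ⟨φ.symm (MulOpposite.op (Multiplicative.ofAdd ⟨a, AddSubgroup.mem_zmultiples a⟩)), fun x => ?_⟩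
  obtain ⟨n, hn⟩ := AddSubgroup.mem_zmultiples_iff.mp (Multiplicative.toAdd (MulOpposite.unop (φ x))).2
  refine ⟨n, ?_⟩
  rw [← map_zpow, MulEquiv.symm_apply_eq, ← MulOpposite.op_zpow, ← ofAdd_zsmul]
  apply MulOpposite.unop_injective
  apply Multiplicative.toAdd.injective
  apply Subtype.ext
  simpa using hn

noncomputable def A (w : ℂ) : ℂ := w ^ 2 * (3 + 2 * w) / (1 + w) ^ 2
noncomputable def B (w : ℂ) : ℂ := w ^ 2 * (3 + w) / (1 + w)

def T (δ : ℝ) : Set ℂ := {w | 1 + w ≠ 0 ∧ w ≠ 0 ∧ ‖A w‖ ^ 2 + ‖B w‖ ^ 2 < δ ^ 2}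

theorem norm_ratio {w : ℂ} (hw : 1 / 2 ≤ ‖w‖) (h1 : 1 + w ≠ 0) : 1 / 3 ≤ ‖w‖ / ‖1 + w‖ := by
  have hp : 0 < ‖1 + w‖ := norm_pos_iff.mpr h1
  have := norm_add_le 1 w
  rw [norm_one] at this
  rw [div_le_div_iff₀ (by norm_num) hp]
  linarith

theorem small_of_lt {w : ℂ} (h1 : 1 + w ≠ 0) (h : ‖A w‖ ^ 2 + ‖B w‖ ^ 2 < (1 / 9) ^ 2) :
    ‖w‖ < 1 / 2 := by
  by_contra hcon
  push Not at hcon
  have hr := norm_ratio hcon h1
  have hp : 0 < ‖1 + w‖ := norm_pos_iff.mpr h1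
  have hA : ‖A w‖ = (‖w‖ / ‖1 + w‖) ^ 2 * ‖3 + 2 * w‖ := by
    simp only [A, norm_div, norm_mul, norm_pow]; field_simp
  have hB : ‖B w‖ = ‖w‖ * (‖w‖ / ‖1 + w‖) * ‖3 + w‖ := by
    simp only [B, norm_div, norm_mul, norm_pow]; field_simp
  have hA' : 1 / 9 * ‖3 + 2 * w‖ ≤ ‖A w‖ := by
    rw [hA]
    apply mul_le_mul_of_nonneg_right _ (norm_nonneg _)
    nlinarith
  have hB' : 1 / 9 * ‖3 + w‖ ≤ ‖B w‖ := by
    rw [hB]
    apply mul_le_mul_of_nonneg_right _ (norm_nonneg _)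
    nlinarith
  have h3 : 3 ≤ ‖3 + 2 * w‖ + 2 * ‖3 + w‖ := by
    have := norm_sub_le (2 * (3 + w)) (3 + 2 * w)
    rw [show 2 * (3 + w) - (3 + 2 * w) = 3 by ring] at this
    simp only [norm_mul, Complex.norm_ofNat] at this
    linarith
  rcases le_or_gt 1 ‖3 + 2 * w‖ with h4 | h4
  · have : 1 / 9 ≤ ‖A w‖ := by linarith
    nlinarith [sq_nonneg ‖B w‖]
  · have : 1 / 9 ≤ ‖B w‖ := by linarith
    nlinarith [sq_nonneg ‖A w‖]

theorem normSq_expand (c : ℝ) (w : ℂ) : ‖(c : ℂ) + w‖ ^ 2 = c ^ 2 + 2 * c * w.re + ‖w‖ ^ 2 := by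
  rw [← Complex.normSq_eq_norm_sq, ← Complex.normSq_eq_norm_sq, Complex.normSq_apply, Complex.normSq_apply]
  simp
  ring

/-- `s |1 + w|^2 ≤ |1 + s w|^2` -/
theorem ineq1 {w : ℂ} (hw : ‖w‖ ≤ 1 / 2) {s : ℝ} (hs0 : 0 ≤ s) (hs1 : s ≤ 1) :
    s * ‖1 + w‖ ^ 2 ≤ ‖1 + s * w‖ ^ 2 := by
  have e1 := normSq_expand 1 w
  have e2 := normSq_expand 1 (s * w)
  simp only [Complex.ofReal_one] at e1 e2
  rw [e1, e2]
  simp only [norm_mul, Complex.norm_real, Real.norm_eq_abs, abs_of_nonneg hs0, Complex.re_ofReal_mul]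
  have hn := norm_nonneg w
  nlinarith [mul_nonneg (sub_nonneg.mpr hs1) (by nlinarith : 0 ≤ 1 - s * ‖w‖ ^ 2)]

/-- `s |1 + w| ≤ |1 + s w|` -/
theorem ineq2 {w : ℂ} (hw : ‖w‖ ≤ 1 / 2) {s : ℝ} (hs0 : 0 ≤ s) (hs1 : s ≤ 1) :
    s * ‖1 + w‖ ≤ ‖1 + s * w‖ := by
  have h := ineq1 hw hs0 hs1
  apply le_of_sq_le_sq _ (norm_nonneg _)
  have : (s * ‖1 + w‖) ^ 2 ≤ s * ‖1 + w‖ ^ 2 := by
    have := sq_nonneg ‖1 + w‖
    nlinarith [mul_nonneg (mul_nonneg hs0 (sub_nonneg.mpr hs1)) this]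
  linarith

theorem ineq3 {w : ℂ} (hw : ‖w‖ ≤ 1 / 2) {s : ℝ} (hs0 : 0 ≤ s) (hs1 : s ≤ 1) :
    s * ‖3 + 2 * (s * w)‖ ≤ ‖3 + 2 * w‖ := by
  have e1 := normSq_expand 3 (2 * w)
  have e2 := normSq_expand 3 (2 * (s * w))
  simp only [Complex.ofReal_ofNat] at e1 e2
  apply le_of_sq_le_sq _ (norm_nonneg _)
  rw [mul_pow, e1, e2]
  have h2 : (2 : ℂ) = ((2 : ℝ) : ℂ) := by simp
  have hre : (2 * w).re = 2 * w.re := by rw [h2, Complex.re_ofReal_mul]
  have hre2 : (2 * (s * w)).re = 2 * (s * w.re) := by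
    rw [h2, Complex.re_ofReal_mul, Complex.re_ofReal_mul]
  rw [hre, hre2]
  simp only [norm_mul, Complex.norm_real, Real.norm_eq_abs, abs_of_nonneg hs0, Complex.norm_ofNat]
  have hn := norm_nonneg w
  have hrew : |w.re| ≤ ‖w‖ := Complex.abs_re_le_norm w
  have hre' : -(1/2) ≤ w.re := by
    have := neg_abs_le w.re; linarith
  -- (9 + 12 re + 4 n^2) - s^2 (9 + 12 s re + 4 s^2 n^2)
  have k1 : 0 ≤ (1 - s ^ 3) * (w.re + 1/2) := mul_nonneg (by nlinarith [pow_nonneg hs0 3, pow_le_one₀ (n := 3) hs0 hs1]) (by linarith)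
  have k2 : 0 ≤ (1 - s ^ 4) * ‖w‖ ^ 2 := mul_nonneg (by nlinarith [pow_le_one₀ (n := 4) hs0 hs1]) (sq_nonneg _)
  have k3 : 0 ≤ 9 * (1 - s ^ 2) - 6 * (1 - s ^ 3) := by
    have : 9 * (1 - s ^ 2) - 6 * (1 - s ^ 3) = 3 * (1 - s) ^ 2 * (1 + 2 * s) := by ring
    rw [this]; positivity
  nlinarith

theorem ineq4 {w : ℂ} (hw : ‖w‖ ≤ 1 / 2) {s : ℝ} (hs0 : 0 ≤ s) (hs1 : s ≤ 1) :
    s * ‖3 + s * w‖ ≤ ‖3 + w‖ := by
  have e1 := normSq_expand 3 w
  have e2 := normSq_expand 3 (s * w)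
  simp only [Complex.ofReal_ofNat] at e1 e2
  apply le_of_sq_le_sq _ (norm_nonneg _)
  rw [mul_pow, e1, e2]
  rw [Complex.re_ofReal_mul]
  simp only [norm_mul, Complex.norm_real, Real.norm_eq_abs, abs_of_nonneg hs0]
  have hn := norm_nonneg w
  have hrew : |w.re| ≤ ‖w‖ := Complex.abs_re_le_norm w
  have hre' : -(1/2) ≤ w.re := by
    have := neg_abs_le w.re; linarith
  have k1 : 0 ≤ (1 - s ^ 3) * (w.re + 1/2) := mul_nonneg (by nlinarith [pow_nonneg hs0 3, pow_le_one₀ (n := 3) hs0 hs1]) (by linarith)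
  have k2 : 0 ≤ (1 - s ^ 4) * ‖w‖ ^ 2 := mul_nonneg (by nlinarith [pow_le_one₀ (n := 4) hs0 hs1]) (sq_nonneg _)
  have k3 : 0 ≤ 9 * (1 - s ^ 2) - 3 * (1 - s ^ 3) := by
    have : 9 * (1 - s ^ 2) - 3 * (1 - s ^ 3) = 3 * (1 - s) * (2 + 2 * s - s ^ 2) := by ring
    rw [this]
    have : 0 ≤ 2 + 2 * s - s ^ 2 := by nlinarith
    have := sub_nonneg.mpr hs1
    positivity
  nlinarith

theorem one_add_ne {w : ℂ} (hw : ‖w‖ ≤ 1 / 2) : 1 + w ≠ 0 := by
  intro h
  have : w = -1 := by linear_combination h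
  rw [this, norm_neg, norm_one] at hw
  norm_num at hw

theorem norm_smul_le_half {w : ℂ} (hw : ‖w‖ ≤ 1 / 2) {s : ℝ} (hs0 : 0 ≤ s) (hs1 : s ≤ 1) :
    ‖s * w‖ ≤ 1 / 2 := by
  rw [norm_mul, Complex.norm_real, Real.norm_eq_abs, abs_of_nonneg hs0]
  nlinarith [norm_nonneg w]

theorem A_mono {w : ℂ} (hw : ‖w‖ ≤ 1 / 2) {s : ℝ} (hs0 : 0 ≤ s) (hs1 : s ≤ 1) :
    ‖A (s * w)‖ ≤ ‖A w‖ := by
  have h1 := one_add_ne hw
  have h2 := one_add_ne (norm_smul_le_half hw hs0 hs1)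
  simp only [A, norm_div, norm_mul, norm_pow, Complex.norm_real, Real.norm_eq_abs, abs_of_nonneg hs0]
  rw [div_le_div_iff₀ (by have := norm_pos_iff.mpr h2; positivity) (by have := norm_pos_iff.mpr h1; positivity)]
  have i1 := ineq1 hw hs0 hs1
  have i3 := ineq3 hw hs0 hs1
  calc (s * ‖w‖) ^ 2 * ‖3 + 2 * (↑s * w)‖ * ‖1 + w‖ ^ 2
      = ‖w‖ ^ 2 * ((s * ‖3 + 2 * (↑s * w)‖) * (s * ‖1 + w‖ ^ 2)) := by ring
    _ ≤ ‖w‖ ^ 2 * (‖3 + 2 * w‖ * ‖1 + s * w‖ ^ 2) := by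
        gcongr
    _ = ‖w‖ ^ 2 * ‖3 + 2 * w‖ * ‖1 + ↑s * w‖ ^ 2 := by ring

theorem B_mono {w : ℂ} (hw : ‖w‖ ≤ 1 / 2) {s : ℝ} (hs0 : 0 ≤ s) (hs1 : s ≤ 1) :
    ‖B (s * w)‖ ≤ ‖B w‖ := by
  have h1 := one_add_ne hw
  have h2 := one_add_ne (norm_smul_le_half hw hs0 hs1)
  simp only [B, norm_div, norm_mul, norm_pow, Complex.norm_real, Real.norm_eq_abs, abs_of_nonneg hs0]
  rw [div_le_div_iff₀ (by have := norm_pos_iff.mpr h2; positivity) (by have := norm_pos_iff.mpr h1; positivity)]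
  have i1 := ineq2 hw hs0 hs1
  have i3 := ineq4 hw hs0 hs1
  calc (s * ‖w‖) ^ 2 * ‖3 + (↑s * w)‖ * ‖1 + w‖ 
      = ‖w‖ ^ 2 * ((s * ‖3 + (↑s * w)‖) * (s * ‖1 + w‖)) := by ring
    _ ≤ ‖w‖ ^ 2 * (‖3 + w‖ * ‖1 + s * w‖) := by
        gcongr
    _ = ‖w‖ ^ 2 * ‖3 + w‖ * ‖1 + ↑s * w‖ := by ring

theorem exists_eta {δ : ℝ} (hδ : 0 < δ) : ∃ η : ℝ, 0 < η ∧ ∀ w : ℂ, w ≠ 0 → ‖w‖ ≤ η → w ∈ T δ := by
  have hA : ContinuousAt A 0 := by
    unfold A
    refine ContinuousAt.div (by fun_prop) (by fun_prop) (by simp)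
  have hB : ContinuousAt B 0 := by
    unfold B
    refine ContinuousAt.div (by fun_prop) (by fun_prop) (by simp)
  have hc : ContinuousAt (fun w => ‖A w‖ ^ 2 + ‖B w‖ ^ 2) 0 := by fun_prop
  have h0 : ‖A 0‖ ^ 2 + ‖B 0‖ ^ 2 < δ ^ 2 := by
    simp [A, B]; positivity
  have hev := hc.eventually_lt_const h0
  rw [Metric.eventually_nhds_iff] at hev
  obtain ⟨ε, hε, hev⟩ := hev
  refine ⟨min (ε / 2) (1 / 2), by positivity, fun w hw0 hw => ⟨?_, hw0, ?_⟩⟩
  · exact one_add_ne (hw.trans (min_le_right _ _))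
  · apply hev
    rw [dist_zero_right]
    have := hw.trans (min_le_left _ _)
    linarith

theorem isPreconnected_T {δ : ℝ} (hδ : 0 < δ) (hδ' : δ < 1 / 9) : IsPreconnected (T δ) := by
  obtain ⟨η, hη, hT⟩ := exists_eta hδ
  have hstar : ∀ w ∈ T δ, ∀ s : ℝ, 0 < s → s ≤ 1 → (s : ℂ) * w ∈ T δ := by
    intro w hw s hs0 hs1
    obtain ⟨h1, h0, h2⟩ := hw
    have hsm : ‖w‖ < 1 / 2 := by
      apply small_of_lt h1
      calc _ < δ ^ 2 := h2
        _ ≤ (1/9) ^ 2 := by gcongr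
    refine ⟨one_add_ne (norm_smul_le_half hsm.le hs0.le hs1), ?_, ?_⟩
    · exact mul_ne_zero (by exact_mod_cast hs0.ne') h0
    · have a1 := A_mono hsm.le hs0.le hs1
      have a2 := B_mono hsm.le hs0.le hs1
      have := norm_nonneg (A (s * w))
      have := norm_nonneg (B (s * w))
      calc ‖A (s * w)‖ ^ 2 + ‖B (s * w)‖ ^ 2 ≤ ‖A w‖ ^ 2 + ‖B w‖ ^ 2 := by gcongr
        _ < δ ^ 2 := h2
  apply isPreconnected_of_forall (η : ℂ)
  intro w hw
  have hw0 : w ≠ 0 := hw.2.1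
  have hwn : 0 < ‖w‖ := norm_pos_iff.mpr hw0
  refine ⟨sphere 0 η ∪ (fun s : ℝ => (s : ℂ) * w) '' Set.Ioc 0 (max 1 (η / ‖w‖)), ?_, ?_, ?_, ?_⟩
  · apply Set.union_subset
    · intro z hz
      rw [mem_sphere_zero_iff_norm] at hz
      apply hT z _ hz.le
      rintro rfl
      rw [norm_zero] at hz
      exact hη.ne hz
    · rintro _ ⟨s, ⟨hs0, hs⟩, rfl⟩
      by_cases hs1 : s ≤ 1
      · exact hstar w hw s hs0 hs1
      · push Not at hs1
        have hs' : s ≤ η / ‖w‖ := by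
          rcases le_max_iff.mp hs with h | h
          · linarith
          · exact h
        apply hT
        · exact mul_ne_zero (by exact_mod_cast hs0.ne') hw0
        · rw [norm_mul, Complex.norm_real, Real.norm_eq_abs, abs_of_pos hs0]
          rwa [le_div_iff₀ hwn] at hs'
  · left
    simp [abs_of_pos hη]
  · right
    exact ⟨1, ⟨one_pos, le_max_left _ _⟩, by simp⟩
  · apply IsPreconnected.union ((η / ‖w‖ : ℝ) * w)
    · rw [mem_sphere_zero_iff_norm, norm_mul, Complex.norm_real, Real.norm_eq_abs, abs_of_pos (by positivity)]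
      field_simp
    · exact ⟨η / ‖w‖, ⟨by positivity, le_max_right _ _⟩, rfl⟩
    · exact isPreconnected_sphere (by rw [Complex.rank_real_complex]; norm_num) _ _
    · exact isPreconnected_Ioc.image _ (by fun_prop)


theorem finrank_le (x₀ : {z : Fin 2 → ℂ | eval z F = 0}) :
    Module.finrank ℤ (Additive (Abelianization
            (FundamentalGroup ↥{z : Fin 2 → ℂ | MvPolynomial.eval z F = 0} x₀))) ≤ 1 := by
  have hcov := Complex.isAddQuotientCoveringMap_exp.homeomorph_comp homeo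
  obtain ⟨e, he⟩ := hcov.surjective x₀
  obtain ⟨g, hg⟩ := exists_generator _ (hcov.fundamentalGroupEquiv ⟨e, he⟩)
  exact finrank_le_one_of_generator g hg

/-- The three cusps. -/
noncomputable def P (ζ : ℂ) : Fin 2 → ℂ := ![3 * ζ, 3 * ζ ^ 2]

theorem par_neg {ζ : ℂ} (h : ζ ^ 3 = 1) : par (-ζ) = P ζ := by
  have h0 : ζ ≠ 0 := by rintro rfl; simp at h
  ext i
  fin_cases i
  · show 1 / (-ζ) ^ 2 - 2 * (-ζ) = 3 * ζ
    field_simp
    linear_combination -h
  · show (-ζ) ^ 2 - 2 / (-ζ) = 3 * ζ ^ 2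
    field_simp
    linear_combination -2 * h

theorem par_shift_zero {ζ w : ℂ} (h : ζ ^ 3 = 1) (hw : 1 + w ≠ 0) :
    par (-ζ * (1 + w)) 0 - P ζ 0 = ζ * A w := by
  have h0 : ζ ≠ 0 := by rintro rfl; simp at h
  simp only [par, P, A, Matrix.cons_val_zero]
  field_simp
  linear_combination -h

theorem par_shift_one {ζ w : ℂ} (h : ζ ^ 3 = 1) (hw : 1 + w ≠ 0) :
    par (-ζ * (1 + w)) 1 - P ζ 1 = ζ ^ 2 * B w := by
  have h0 : ζ ≠ 0 := by rintro rfl; simp at h
  simp only [par, P, B, Matrix.cons_val_one, Matrix.cons_val_fin_one]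
  field_simp
  linear_combination -2 * h

theorem norm_eq_one {ζ : ℂ} (h : ζ ^ 3 = 1) : ‖ζ‖ = 1 :=
  Complex.norm_eq_one_of_pow_eq_one h (by norm_num)

theorem punctured_ball_eq {ζ : ℂ} (h : ζ ^ 3 = 1) (δ : ℝ) :
    {q : Fin 2 → ℂ | MvPolynomial.eval q F = 0 ∧ q ≠ P ζ ∧
            ‖q 0 - P ζ 0‖ ^ 2 + ‖q 1 - P ζ 1‖ ^ 2 < δ ^ 2} =
      (fun w => par (-ζ * (1 + w))) '' T δ := by
  have h0 : ζ ≠ 0 := by rintro rfl; simp at h
  have hn := norm_eq_one h
  ext q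
  constructor
  · rintro ⟨h1, h2, h3⟩
    rw [eval_F] at h1
    obtain ⟨r, hr, rfl⟩ := par_surj q h1
    obtain ⟨w, hw⟩ : ∃ w, w = -r / ζ - 1 := ⟨_, rfl⟩
    have hrw : r = -ζ * (1 + w) := by rw [hw]; field_simp; ring
    have hw1 : 1 + w ≠ 0 := by
      intro h'
      rw [h', mul_zero] at hrw
      exact hr hrw
    have hw0 : w ≠ 0 := by
      rintro h'
      rw [h', add_zero, mul_one] at hrw
      apply h2
      rw [hrw, par_neg h]
    refine ⟨w, ⟨hw1, hw0, ?_⟩, by rw [hrw]⟩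
    rw [hrw, par_shift_zero h hw1, par_shift_one h hw1] at h3
    simpa [norm_mul, norm_pow, hn] using h3
  · rintro ⟨w, ⟨hw1, hw0, hw⟩, rfl⟩
    have hr : -ζ * (1 + w) ≠ 0 := mul_ne_zero (neg_ne_zero.mpr h0) hw1
    refine ⟨?_, ?_, ?_⟩
    · rw [eval_F]; exact par_mem _ hr
    · intro he
      simp only at he
      rw [← par_neg h] at he
      have := par_inj hr (neg_ne_zero.mpr h0) he
      apply hw0
      have h3 : ζ * w = 0 := by linear_combination -this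
      exact (mul_eq_zero.mp h3).resolve_left h0
    · simp only
      rw [par_shift_zero h hw1, par_shift_one h hw1]
      simpa [norm_mul, norm_pow, hn] using hw

theorem unibranch {ζ : ℂ} (h : ζ ^ 3 = 1) {δ : ℝ} (h1 : 0 < δ) (h2 : δ < 1 / 9) :
    IsPreconnected {q : Fin 2 → ℂ | MvPolynomial.eval q F = 0 ∧ q ≠ P ζ ∧
            ‖q 0 - P ζ 0‖ ^ 2 + ‖q 1 - P ζ 1‖ ^ 2 < δ ^ 2} := by
  have h0 : ζ ≠ 0 := by rintro rfl; simp at h
  rw [punctured_ball_eq h]
  refine (isPreconnected_T h1 h2).image _ ?_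
  refine continuousOn_par.comp (f := fun w => -ζ * (1 + w)) (by fun_prop) ?_
  intro w hw
  exact mul_ne_zero (neg_ne_zero.mpr h0) hw.1

theorem singular_points {p : Fin 2 → ℂ} (h : eval p F = 0)
    (h' : ∀ i : Fin 2, eval p (pderiv i F) = 0) : ∃ ζ : ℂ, ζ ^ 3 = 1 ∧ p = P ζ := by
  have e1 := h' 0
  have e2 := h' 1
  rw [eval_F] at h
  rw [eval_pderiv_zero] at e1
  rw [eval_pderiv_one] at e2
  have hab : (p 0 * p 1 - 9) ^ 2 = 0 := by
    linear_combination 2 * p 0 * e1 - 3 * h + (1 / 1) * (p 1 * e2 - p 0 * e1)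
  have hab' : p 0 * p 1 = 9 := sub_eq_zero.mp (pow_eq_zero_iff (two_ne_zero) |>.mp hab)
  have ha3 : p 0 ^ 3 = 27 := by
    linear_combination (-1 / 12) * p 0 * e1 + (p 0 * p 1 + 18) / 6 * hab'
  refine ⟨p 0 / 3, by rw [div_pow, ha3]; norm_num, ?_⟩
  ext i
  fin_cases i
  · show p 0 = 3 * (p 0 / 3)
    ring
  · show p 1 = 3 * (p 0 / 3) ^ 2
    linear_combination (-1 / 27) * p 1 * ha3 + (1 / 27) * p 0 ^ 2 * hab'

theorem ncard_eq : Set.ncard {p : Fin 2 → ℂ | MvPolynomial.eval p F = 0 ∧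
        (∀ i : Fin 2, MvPolynomial.eval p (MvPolynomial.pderiv i F) = 0) ∧
        ∃ ε : ℝ, 0 < ε ∧ ∀ δ : ℝ, 0 < δ → δ < ε →
          IsPreconnected {q : Fin 2 → ℂ | MvPolynomial.eval q F = 0 ∧ q ≠ p ∧
            ‖q 0 - p 0‖ ^ 2 + ‖q 1 - p 1‖ ^ 2 < δ ^ 2}} = 3 := by
  obtain ⟨d, hd⟩ := IsAlgClosed.exists_pow_nat_eq (-3 : ℂ) (n := 2) (by norm_num)
  obtain ⟨ω, hω⟩ : ∃ ω : ℂ, ω = (-1 + d) / 2 := ⟨_, rfl⟩
  have hω2 : ω ^ 2 + ω + 1 = 0 := by rw [hω]; linear_combination (1 / 4) * hd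
  have hω3 : ω ^ 3 = 1 := by linear_combination (ω - 1) * hω2
  have hω1 : ω ≠ 1 := by
    rintro rfl
    norm_num at hω2
  have hω21 : ω ^ 2 ≠ 1 := by
    intro h
    apply hω1
    have : ω ^ 3 = ω := by rw [pow_succ, h, one_mul]
    rw [← this, hω3]
  have hω22 : ω ≠ ω ^ 2 := by
    intro h
    apply hω21
    have : ω ^ 3 = ω ^ 2 * ω := by ring
    rw [← h] at this
    rw [← hω3, this]; ring
  have hP : ∀ {a b : ℂ}, P a = P b → a = b := by
    intro a b h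
    have := congrFun h 0
    simp only [P, Matrix.cons_val_zero] at this
    exact mul_left_cancel₀ (by norm_num) this
  rw [Set.ncard_eq_three]
  refine ⟨P 1, P ω, P (ω ^ 2), fun h => hω1 (hP h).symm, fun h => hω21 (hP h).symm,
    fun h => hω22 (hP h), ?_⟩
  ext p
  simp only [Set.mem_insert_iff, Set.mem_singleton_iff]
  constructor
  · rintro ⟨h1, h2, -⟩
    obtain ⟨ζ, hζ, rfl⟩ := singular_points h1 h2
    have : (ζ - 1) * ((ζ - ω) * (ζ - ω ^ 2)) = 0 := by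
      linear_combination hζ - (ζ - 1) * ζ * hω2 + (ζ-1) * hω3
    rcases mul_eq_zero.mp this with h | h
    · left; rw [sub_eq_zero.mp h]
    · rcases mul_eq_zero.mp h with h | h
      · right; left; rw [sub_eq_zero.mp h]
      · right; right; rw [sub_eq_zero.mp h]
  · intro hp
    obtain ⟨ζ, hζ, rfl⟩ : ∃ ζ : ℂ, ζ ^ 3 = 1 ∧ p = P ζ := by
      rcases hp with h | h | h
      · exact ⟨1, by norm_num, h⟩
      · exact ⟨ω, hω3, h⟩
      · exact ⟨ω ^ 2, by rw [← pow_mul, mul_comm, pow_mul, hω3, one_pow], h⟩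
    refine ⟨?_, ?_, 1 / 9, by norm_num, fun δ h1 h2 => unibranch hζ h1 h2⟩
    · rw [eval_F]
      simp only [P, Matrix.cons_val_zero, Matrix.cons_val_one, Matrix.cons_val_fin_one]
      linear_combination (27 - 27 * ζ ^ 3) * hζ
    · intro i
      fin_cases i
      · show eval (P ζ) (pderiv 0 F) = 0
        rw [eval_pderiv_zero]
        simp only [P, Matrix.cons_val_zero, Matrix.cons_val_one, Matrix.cons_val_fin_one]
        linear_combination 54 * ζ ^ 2 * hζ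
      · show eval (P ζ) (pderiv 1 F) = 0
        rw [eval_pderiv_one]
        simp only [P, Matrix.cons_val_zero, Matrix.cons_val_one, Matrix.cons_val_fin_one]
        linear_combination -54 * ζ * hζ

end Pool.Agent.Lib.MP_aaa69e_ag
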